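import Pool.Agent.Y599.RB.Dir
import Pool.Agent.Y599.RB.Mem

/-!
# The red-blue cut problem for directed graphs is NP-complete

Reduction from the clique problem. Many sources and many sinks (complete digraphs of red arcs, with
red arcs from all other vertices to the sources and from the sinks to all other vertices) force every
cheap cut to separate the sources from the sinks.
-/

namespace Pool.Agent.Results.MP_ac2b6c_lc.DirectedRedBlueCutNPComplete

open Pool.Agent.NPC Pool.Agent.Y599.RB

/-- The directed red-blue cut problem is NP-complete; it has a polynomial-time algorithm if and only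
if `P = NP`. -/
theorem result : InNPP DirectedRedBlueCut ∧ NPHardP DirectedRedBlueCut ∧
    (InPP DirectedRedBlueCut ↔ ∀ L : Set (List Bool), InNP L → InP L) :=
  ⟨inNPP_directed, Dir.hardI.toNPHardP,
    fun h => NPHard.collapse Dir.hardI.toNPHardP h, fun h => h _ inNPP_directed⟩

end Pool.Agent.Results.MP_ac2b6c_lc.DirectedRedBlueCutNPComplete
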